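import Pool.Agent.Y413.PM.Stm

/-! PM-CUT (helper908) : half of the inner edges of a set are cut. -/

set_option autoImplicit false
set_option linter.unusedSectionVars false

open Finset

namespace Y908.PM

open Y413.PM

section
variable {V : Type} [Fintype V] [DecidableEq V]

open Classical in
/-- the number of edges inside `S` -/
noncomputable def inn (E : Finset (Sym2 V)) (S : Finset V) : ℕ :=
  (E.filter fun e => ∀ v ∈ e, v ∈ S).card

theorem inn_mk {S : Finset V} {a b : V} : (∀ v ∈ s(a, b), v ∈ S) ↔ a ∈ S ∧ b ∈ S := by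
  constructor
  · intro h
    exact ⟨h a (Sym2.mem_mk_left _ _), h b (Sym2.mem_mk_right _ _)⟩
  · rintro ⟨h1, h2⟩ v hv
    rcases Sym2.mem_iff.mp hv with rfl | rfl
    · exact h1
    · exact h2

theorem cr_comm (E : Finset (Sym2 V)) (A B : Finset V) : cr E A B = cr E B A := by
  classical
  unfold cr
  congr 1
  ext e
  rw [mem_filter, mem_filter]
  tauto

theorem cr_add (E : Finset (Sym2 V)) (A B : Finset V) (w : V) (hwA : w ∉ A) (hwB : w ∉ B)
    (hAB : Disjoint A B) : cr E A B + cr E {w} B ≤ cr E (insert w A) B := by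
  classical
  unfold cr
  rw [← card_union_of_disjoint]
  · apply card_le_card
    intro e he
    rw [mem_union, mem_filter, mem_filter] at he
    rw [mem_filter]
    rcases he with ⟨h1, ⟨v, hv, hve⟩, h3⟩ | ⟨h1, ⟨v, hv, hve⟩, h3⟩
    · exact ⟨h1, ⟨v, mem_insert_of_mem hv, hve⟩, h3⟩
    · rw [mem_singleton] at hv
      subst hv
      exact ⟨h1, ⟨v, mem_insert_self _ _, hve⟩, h3⟩
  · rw [disjoint_left]
    intro e h1 h2
    rw [mem_filter] at h1 h2
    obtain ⟨_, h3, h4⟩ := h1
    obtain ⟨_, h5, _⟩ := h2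
    revert h3 h4 h5
    induction e using Sym2.ind with
    | _ a b =>
      rw [hit_mk, hit_mk, hit_mk, mem_singleton, mem_singleton]
      intro h3 h4 h5
      have hd : ∀ x, x ∈ A → x ∉ B := fun x hx hx' => disjoint_left.1 hAB hx hx'
      rcases h5 with rfl | rfl
      · have h6 : b ∈ A := by tauto
        have h7 : b ∈ B := by tauto
        exact hd b h6 h7
      · have h6 : a ∈ A := by tauto
        have h7 : a ∈ B := by tauto
        exact hd a h6 h7

theorem inn_insert (E : Finset (Sym2 V)) (hE : ∀ e ∈ E, ¬ e.IsDiag) (S Q : Finset V) (w : V) :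
    inn E (insert w S) ≤ inn E S + cr E {w} Q + cr E {w} (S \ Q) := by
  classical
  unfold inn cr
  refine le_trans (card_le_card (t := (E.filter fun e => ∀ v ∈ e, v ∈ S) ∪
    (E.filter fun e => hit {w} e ∧ hit Q e) ∪ (E.filter fun e => hit {w} e ∧ hit (S \ Q) e)) ?_) ?_
  · intro e he
    rw [mem_filter] at he
    obtain ⟨heE, h1⟩ := he
    have hdiag := hE e heE
    rw [mem_union, mem_union, mem_filter, mem_filter, mem_filter]
    revert heE h1 hdiag
    induction e using Sym2.ind with
    | _ a b =>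
      intro heE h1 hdiag
      rw [Sym2.mk_isDiag_iff] at hdiag
      rw [inn_mk, mem_insert, mem_insert] at h1
      rw [inn_mk, hit_mk, hit_mk, hit_mk, mem_singleton, mem_singleton, mem_sdiff, mem_sdiff]
      rcases h1 with ⟨rfl | ha, rfl | hb⟩
      · exact absurd rfl hdiag
      · by_cases hbQ : b ∈ Q
        · exact Or.inl (Or.inr ⟨heE, Or.inl rfl, Or.inr hbQ⟩)
        · exact Or.inr ⟨heE, Or.inl rfl, Or.inr ⟨hb, hbQ⟩⟩
      · by_cases haQ : a ∈ Q
        · exact Or.inl (Or.inr ⟨heE, Or.inr rfl, Or.inl haQ⟩)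
        · exact Or.inr ⟨heE, Or.inr rfl, Or.inl ⟨ha, haQ⟩⟩
      · exact Or.inl (Or.inl ⟨heE, ha, hb⟩)
  · exact (card_union_le _ _).trans (Nat.add_le_add_right (card_union_le _ _) _)

theorem M_le (E : Finset (Sym2 V)) (S : Finset V) : M E S ≤ inn E S + cr E S Sᶜ := by
  classical
  unfold M inn cr
  refine le_trans (card_le_card (t := (E.filter fun e => ∀ v ∈ e, v ∈ S) ∪
    (E.filter fun e => hit S e ∧ hit Sᶜ e)) ?_) (card_union_le _ _)
  intro e he
  rw [mem_filter] at he
  obtain ⟨heE, h1⟩ := he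
  rw [mem_union, mem_filter, mem_filter]
  revert heE h1
  induction e using Sym2.ind with
  | _ a b =>
    intro heE h1
    rw [inn_mk, hit_mk, hit_mk, mem_compl, mem_compl]
    rw [hit_mk] at h1
    tauto

theorem half_cut (E : Finset (Sym2 V)) (hE : ∀ e ∈ E, ¬ e.IsDiag) (S : Finset V) :
    ∃ Q ⊆ S, inn E S ≤ 2 * cr E Q (S \ Q) := by
  classical
  induction S using Finset.induction_on with
  | empty =>
    refine ⟨∅, Subset.refl _, ?_⟩
    have : inn E (∅ : Finset V) = 0 := by
      unfold inn
      rw [card_eq_zero, filter_eq_empty_iff]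
      intro e _ h
      induction e using Sym2.ind with
      | _ a b => exact absurd (h a (Sym2.mem_mk_left _ _)) (notMem_empty a)
    rw [this]
    exact Nat.zero_le _
  | insert w S hw ih =>
    obtain ⟨Q, hQ, h⟩ := ih
    have hwQ : w ∉ Q := fun h' => hw (hQ h')
    have hwS : w ∉ S \ Q := fun h' => hw (mem_sdiff.1 h').1
    have h1 := inn_insert E hE S Q w
    rcases le_total (cr E {w} Q) (cr E {w} (S \ Q)) with h2 | h2
    · refine ⟨insert w Q, insert_subset_insert _ hQ, ?_⟩
      have e : insert w S \ insert w Q = S \ Q := by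
        ext x
        rw [mem_sdiff, mem_sdiff, mem_insert, mem_insert]
        constructor
        · tauto
        · rintro ⟨h3, h4⟩
          refine ⟨Or.inr h3, ?_⟩
          rintro (rfl | h5)
          · exact hw h3
          · exact h4 h5
      rw [e]
      have h3 := cr_add E Q (S \ Q) w hwQ hwS disjoint_sdiff
      omega
    · refine ⟨Q, hQ.trans (subset_insert _ _), ?_⟩
      have e : insert w S \ Q = insert w (S \ Q) := insert_sdiff_of_notMem _ hwQ
      rw [e]
      have h3 := cr_add E (S \ Q) Q w hwS hwQ disjoint_sdiff.symm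
      rw [cr_comm E (S \ Q) Q, cr_comm E (insert w (S \ Q)) Q] at h3
      omega

end

theorem t_CUT : Y413.PM.S_CUT := by
  intro V _ _ E hE S
  obtain ⟨Q, hQ, h⟩ := half_cut E hE S
  refine ⟨Q, hQ, ?_⟩
  have := M_le E S
  omega

end Y908.PM
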